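import Pool.Agent.Lib.MP_9227d9_nt.MobAll

/-!
The Moebius function on shifted primes over finite fields of characteristic two,
with a power saving, uniformly in the shift and in arithmetic progressions.
-/

open Polynomial

theorem Pool.Agent.Results.MP_9227d9_nt.MoebiusShiftedPrimes.result :
    ∃ c : ℝ, 0 < c ∧ ∀ (k : Type) [Field k] [Fintype k] [CharP k 2], ∃ C : ℝ,
      ∀ (n : ℕ) (h E a : k[X]), h ≠ 0 → E ≠ 0 → (h.natDegree : ℝ) ≤ c * n →
        (E.natDegree : ℝ) ≤ c * n →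
        |∑ᶠ P ∈ {P : k[X] | P.Monic ∧ Irreducible P ∧ P.natDegree = n ∧ E ∣ P - a},
          ((UniqueFactorizationMonoid.moebius (P + h) : ℤ) : ℝ)| ≤
          C * (Fintype.card k : ℝ) ^ ((1 - c) * n) :=
  Pool.Agent.Lib.MP_9227d9_nt.Mob.allMain
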