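import Pool.Agent.Lib.MP_9227d9_nt.H5.F7

namespace Pool.Agent.Results.MP_9227d9_nt.PolignacThird

theorem result : ∀ d : ℕ, 1 ≤ d → ∀ ε : ℝ, 0 < ε → ∃ N0 : ℕ, ∀ N : ℕ, N0 ≤ N → ∀ M : ℕ,
    (1 / 3 - ε) * (N : ℝ) ≤ ({m : ℕ | M < m ∧ m ≤ M + N ∧
      {p : ℕ | p.Prime ∧ (p + 2 * d * m).Prime ∧
        ∀ q : ℕ, p < q → q < p + 2 * d * m → ¬ q.Prime}.Infinite}.ncard : ℝ) :=
  fun _ hd _ hε => Pool.Agent.Lib.MP_9227d9_nt.H5.pol_density hd hε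

end Pool.Agent.Results.MP_9227d9_nt.PolignacThird
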