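import Pool.Agent.Lib.MP_9227d9_nt.GbOne

/-!
The Hardy-Littlewood asymptotic formula for prime pairs `P, P + h` in `k[T]`, for every finite
field `k` of characteristic two, uniformly in the shift `h` (twin primes and binary Goldbach),
with a set `G` of further shifts that are required not to give a prime.
-/

open Polynomial

open scoped Classical

theorem Pool.Agent.Results.MP_9227d9_nt.PrimePairsUniformEven.result :
    ∀ (k : Type) [Field k] [Fintype k] [CharP k 2], ∃ (S : k[X] → ℝ) (c : ℝ), 0 < c ∧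
      (∀ h : k[X], h ≠ 0 → HasProd (fun p : {p : k[X] // p.Monic ∧ Irreducible p} =>
        (1 - (if p.1 ∣ h then 1 else 2) / (Fintype.card k : ℝ) ^ p.1.natDegree) /
          (1 - 1 / (Fintype.card k : ℝ) ^ p.1.natDegree) ^ 2) (S h) ∧
        ((Fintype.card k = 2 → X * (X + 1) ∣ h) → c ≤ S h)) ∧
      ∀ (ε : ℝ) (r : ℕ), 0 < ε → ∃ (η : ℝ) (N : ℕ), 0 < η ∧
        ∀ (n : ℕ) (h : k[X]) (G : Finset k[X]), N ≤ n → h ≠ 0 → (h.natDegree : ℝ) ≤ (1 + η) * n →
          G.card ≤ r → (∀ g ∈ G, g.natDegree ≤ 2 * n) →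
          |(n : ℝ) ^ 2 * (Set.ncard {P : k[X] | P.Monic ∧ P.natDegree = n ∧ Irreducible P ∧
            Irreducible (P + h) ∧ ∀ g ∈ G, Irreducible (P + g) → g = 0 ∨ g = h} : ℝ) /
            (Fintype.card k : ℝ) ^ n - S h| ≤ ε * max (S h) c :=
  Pool.Agent.Lib.MP_9227d9_nt.Mob.gbOne
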