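import Pool.Agent.Lib.MP_9227d9_nt.H66Count

open Pool.Agent.Lib.MP_9227d9_nt.H66

namespace Pool.Agent.Results.MP_9227d9_nt.ZeroCount

/-- The number of zeros up to `X` is at most `X * exp (-(log X) ^ (1 / 4) / 30)`. -/
theorem result :
    ∀ m : ℕ, 1 ≤ m → ∃ X₀ : ℕ, ∀ a : ℕ → ℕ,
      (∀ n : ℕ, 2 ≤ n →
        a n = Int.natAbs ((a (n - 1) : ℤ) - ((Nat.gcd (a (n - 1)) (n * (n + 2 * m)) : ℕ) : ℤ))) →
      ∀ X : ℕ, X₀ ≤ X →
        (((Finset.Icc 1 X).filter fun n => a n = 0).card : ℝ) ≤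
          X * Real.exp (-(Real.log X ^ (1 / 4 : ℝ) / 30)) := by
  intro m hm
  refine ⟨2 ^ (16 * (40 + m)) ^ 4, fun a hrec X hX => ?_⟩
  have hex : ∃ n, X < 2 ^ (16 * n) ^ 4 :=
    ⟨X, Nat.lt_two_pow_self.trans_le (Nat.pow_le_pow_right two_pos
      (le_trans (by omega) (Nat.le_self_pow (by omega) (16 * X))))⟩
  have h1 := Nat.find_spec hex
  have h2 : 40 + m < Nat.find hex := by
    by_contra h
    exact absurd (h1.trans_le (Nat.pow_le_pow_right two_pos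
      (Nat.pow_le_pow_left (Nat.mul_le_mul_left 16 (not_lt.1 h)) 4))) (not_lt.2 hX)
  obtain ⟨γ, hγ⟩ : ∃ γ, Nat.find hex = γ + 1 := ⟨Nat.find hex - 1, by omega⟩
  have h3 := not_lt.1 (Nat.find_min hex (show γ < Nat.find hex by omega))
  rw [hγ] at h1 h2
  have h4 : 2 * m ≤ 2 ^ γ :=
    calc 2 * m ≤ 2 * 2 ^ m := Nat.mul_le_mul_left 2 Nat.lt_two_pow_self.le
      _ = 2 ^ (m + 1) := by ring
      _ ≤ 2 ^ γ := Nat.pow_le_pow_right two_pos (by omega)
  have h5 := count_main hrec hm (γ := γ) (by omega) h4 h3 h1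
  have hX0 : (0 : ℝ) < X := by exact_mod_cast (Nat.two_pow_pos _).trans_le hX
  have l1 := Real.log_two_lt_d9
  have l2 := Real.log_two_gt_d9
  have h6 : Real.log X ≤ (16 * ((γ : ℝ) + 1)) ^ 4 := by
    have c1 : (X : ℝ) ≤ 2 ^ (16 * (γ + 1)) ^ 4 := by exact_mod_cast h1.le
    have c2 := Real.log_le_log hX0 c1
    rw [Real.log_pow] at c2
    have c3 := mul_le_mul_of_nonneg_left (show Real.log 2 ≤ 1 by linarith)
      (Nat.cast_nonneg (α := ℝ) ((16 * (γ + 1)) ^ 4))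
    push_cast at c2 c3
    linarith only [c2, c3]
  replace h2 : 40 ≤ γ := by omega
  clear h1 h3 h4 hX hγ hex hrec
  have h7 : Real.log X ^ (1 / 4 : ℝ) ≤ 16 * ((γ : ℝ) + 1) := by
    have := Real.rpow_le_rpow (Real.log_natCast_nonneg X) h6 (show (0 : ℝ) ≤ 1 / 4 by norm_num)
    rwa [show (1 / 4 : ℝ) = ((4 : ℕ) : ℝ)⁻¹ by norm_num,
      Real.pow_rpow_inv_natCast (by positivity) (by norm_num),
      show ((4 : ℕ) : ℝ)⁻¹ = 1 / 4 by norm_num] at this
  have h8 : (40 : ℝ) / 2 ^ γ ≤ Real.exp (-(Real.log X ^ (1 / 4 : ℝ) / 30)) := by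
    have c1 : (40 : ℝ) ≤ γ := by exact_mod_cast h2
    rw [← Real.log_le_iff_le_exp (by positivity), Real.log_div (by norm_num) (by positivity),
      Real.log_pow]
    have c2 : Real.log 40 ≤ 6 * Real.log 2 := by
      have := Real.log_le_log (by norm_num) (show (40 : ℝ) ≤ 2 ^ 6 by norm_num)
      rwa [Real.log_pow, Nat.cast_ofNat] at this
    have c3 := mul_le_mul_of_nonneg_left l2.le (Nat.cast_nonneg (α := ℝ) γ)
    linarith only [c1, c2, c3, h7, l1]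
  calc _ ≤ (((Finset.range (X + 1)).filter fun n => a n = 0).card : ℝ) :=
        Nat.cast_le.2 (Finset.card_le_card (Finset.filter_subset_filter _ fun n hn =>
          Finset.mem_range.2 (Nat.lt_succ_of_le (Finset.mem_Icc.1 hn).2)))
    _ ≤ X * (40 / 2 ^ γ) := h5.trans_eq (by ring)
    _ ≤ _ := mul_le_mul_of_nonneg_left h8 hX0.le

end Pool.Agent.Results.MP_9227d9_nt.ZeroCount
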